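import Mathlib
import Pool.Agent.Q175.Skel

/-!
# Common subskeletons of countably many retractional skeletons

* For every retractional skeleton on a compact space there is another one, consisting of the same
  retractions, such that the two have no common subskeleton (the obstruction comes from the
  cofinalities of the index sets).
* If the orders of the index sets are determined by the retractions, then countably many
  retractional skeletons inducing the same set always have a common subskeleton.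
-/

open Set Filter Topology TopologicalSpace Cardinal
open Q175.Skel

namespace Pool.Agent.Results.MP_fb95e7_gt.CommonSubskeletons

universe u v w

/-- Retractional skeletons. -/
structure IsRetractionalSkeleton {K : Type u} [TopologicalSpace K] {Γ : Type v} [PartialOrder Γ]
    (r : Γ → K → K) : Prop where
  /-- the index set is nonempty -/
  nonempty : Nonempty Γ
  /-- the index set is up-directed -/
  directed : ∀ s t : Γ, ∃ u, s ≤ u ∧ t ≤ u
  /-- the index set is σ-complete -/
  sup : ∀ u : ℕ → Γ, Monotone u → ∃ t, IsLUB (range u) t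
  /-- each `r s` is continuous -/
  continuous : ∀ s, Continuous (r s)
  /-- each `r s` is a retraction -/
  retraction : ∀ s, r s ∘ r s = r s
  /-- the ranges are metrizable -/
  metrizable : ∀ s, MetrizableSpace (range (r s))
  /-- compatibility -/
  compat : ∀ s t, s ≤ t → r s = r s ∘ r t ∧ r s = r t ∘ r s
  /-- continuity along strictly increasing sequences -/
  lim_seq : ∀ u : ℕ → Γ, StrictMono u → ∀ t, IsLUB (range u) t → ∀ x,
    Tendsto (fun n => r (u n) x) atTop (𝓝 (r t x))
  /-- each point is the limit of its images -/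
  lim : ∀ x, Tendsto (fun s => r s x) atTop (𝓝 x)

/-- The set induced by a family of retractions. -/
def induced {K : Type u} {Γ : Type v} (r : Γ → K → K) : Set K := ⋃ s, range (r s)

/-- Cofinal subsets. -/
def IsCofinalSet {Γ : Type v} [PartialOrder Γ] (A : Set Γ) : Prop := ∀ s, ∃ t ∈ A, s ≤ t

/-- σ-closed subsets. -/
def IsSigmaClosed {Γ : Type v} [PartialOrder Γ] (A : Set Γ) : Prop :=
  ∀ u : ℕ → Γ, Monotone u → (∀ n, u n ∈ A) → ∀ t, IsLUB (range u) t → t ∈ A

/-- `R` is a common subskeleton of the skeletons `r n`: it is a retractional skeleton, and for each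
`n` it is obtained by an order isomorphism of its index set with a σ-closed cofinal subset of the
index set of `r n`. -/
structure IsCommonSubskeleton {K : Type u} [TopologicalSpace K] {Λ : Type w} [PartialOrder Λ]
    (R : Λ → K → K) {G : ℕ → Type v} [∀ n, PartialOrder (G n)] (r : ∀ n, G n → K → K) : Prop where
  skeleton : IsRetractionalSkeleton R
  exists_iso : ∀ n, ∃ A : Set (G n), IsSigmaClosed A ∧ IsCofinalSet A ∧
    ∃ φ : Λ ≃o A, ∀ i, R i = r n (φ i)

section

set_option linter.unusedSectionVars false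

variable {K : Type u} [TopologicalSpace K] [CompactSpace K] [T2Space K] {Γ : Type v}
  [PartialOrder Γ] {r : Γ → K → K}

theorem comp₁ (hr : IsRetractionalSkeleton r) {s t : Γ} (h : s ≤ t) (x : K) :
    r s (r t x) = r s x := (congrFun (hr.compat s t h).1 x).symm

theorem comp₂ (hr : IsRetractionalSkeleton r) {s t : Γ} (h : s ≤ t) (x : K) :
    r t (r s x) = r s x := (congrFun (hr.compat s t h).2 x).symm

/-- Continuity along increasing sequences. -/
theorem lim_mono (hr : IsRetractionalSkeleton r) {u : ℕ → Γ} (hu : Monotone u) {t : Γ}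
    (ht : IsLUB (range u) t) (x : K) : Tendsto (fun n => r (u n) x) atTop (𝓝 (r t x)) := by
  by_cases hst : ∃ m, ∀ n, m ≤ n → u n = u m
  · obtain ⟨m, hm⟩ := hst
    have h1 : t = u m := by
      refine le_antisymm (ht.2 ?_) (ht.1 ⟨m, rfl⟩)
      rintro _ ⟨n, rfl⟩
      rcases le_total m n with h | h
      · exact (hm n h).le
      · exact hu h
    rw [h1]
    refine tendsto_const_nhds.congr' ?_
    filter_upwards [eventually_ge_atTop m] with n hn
    rw [hm n hn]
  · push Not at hst
    have hlt : ∀ m, ∃ n, m ≤ n ∧ u m < u n := by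
      intro m
      obtain ⟨n, hn, hne⟩ := hst m
      exact ⟨n, hn, lt_of_le_of_ne (hu hn) hne.symm⟩
    refine tendsto_of_subseq_tendsto fun ns hns => ?_
    -- choose a strictly increasing subsequence
    have hstep : ∀ m, ∃ n, m < n ∧ u (ns m) < u (ns n) := by
      intro m
      obtain ⟨k, _, hk⟩ := hlt (ns m)
      obtain ⟨n, hn1, hn2⟩ := ((tendsto_atTop.1 hns k).and (eventually_gt_atTop m)).exists
      exact ⟨n, hn2, hk.trans_le (hu hn1)⟩
    choose g hg1 hg2 using hstep
    let ms : ℕ → ℕ := fun n => g^[n] 0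
    have hms : ∀ n, ms (n + 1) = g (ms n) := fun n => Function.iterate_succ_apply' _ _ _
    have hsm : StrictMono fun n => u (ns (ms n)) := strictMono_nat_of_lt_succ fun n => by
      rw [hms]
      exact hg2 _
    have hms' : StrictMono ms := strictMono_nat_of_lt_succ fun n => by
      rw [hms]
      exact hg1 _
    refine ⟨ms, hr.lim_seq _ hsm t ⟨?_, ?_⟩ x⟩
    · rintro _ ⟨n, rfl⟩
      exact ht.1 ⟨_, rfl⟩
    · intro t' ht'
      refine ht.2 ?_
      rintro _ ⟨k, rfl⟩
      have h2 : Tendsto (fun n => ns (ms n)) atTop atTop := hns.comp hms'.tendsto_atTop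
      obtain ⟨n, hn⟩ := (tendsto_atTop.1 h2 k).exists
      exact (hu hn).trans (ht' ⟨n, rfl⟩)

theorem preSkel (hr : IsRetractionalSkeleton r) : PreSkel r where
  ne := hr.nonempty
  dir := hr.directed
  sup := hr.sup
  cont := hr.continuous
  comp₁ := fun _ _ h x => comp₁ hr h x
  comp₂ := fun _ _ h x => comp₂ hr h x
  lim := fun _ hu _ ht x => lim_mono hr hu ht x

theorem fix_of_range (hr : IsRetractionalSkeleton r) {s : Γ} {d : K} (hd : d ∈ range (r s)) :
    r s d = d := by
  obtain ⟨x, rfl⟩ := hd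
  exact congrFun (hr.retraction s) x

theorem closure_eq (hr : IsRetractionalSkeleton r) (x : K) : x ∈ closure (⋃ s, range (r s)) := by
  have := hr.nonempty
  have : IsDirectedOrder Γ := ⟨fun s t => hr.directed s t⟩
  exact mem_closure_of_tendsto (hr.lim x)
    (Eventually.of_forall fun s => mem_iUnion.2 ⟨s, ⟨x, rfl⟩⟩)

/-- Each retraction of a skeleton factors through a retraction of any other skeleton. -/
theorem factor {Γ' : Type w} [PartialOrder Γ'] {r' : Γ' → K → K} (hr : IsRetractionalSkeleton r)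
    (hr' : IsRetractionalSkeleton r') (t : Γ) : ∃ s, ∀ x, r t (r' s x) = r t x := by
  have := hr.metrizable t
  let _ := metrizableSpaceMetric (range (r t))
  have hρ : Continuous fun x => (⟨r t x, mem_range_self x⟩ : range (r t)) :=
    (hr.continuous t).subtype_mk _
  obtain ⟨s, hs⟩ := (preSkel hr').factor hρ
  exact ⟨s, fun x => congrArg Subtype.val (hs x (closure_eq hr' x))⟩

/-- Each range of a skeleton is contained in a range of any other skeleton inducing the same
set. -/
theorem range_sub {Γ' : Type w} [PartialOrder Γ'] {r' : Γ' → K → K}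
    (hr : IsRetractionalSkeleton r) (hr' : IsRetractionalSkeleton r')
    (hD : induced r = induced r') (t : Γ) : ∃ s, ∀ x, r' s (r t x) = r t x := by
  classical
  rcases isEmpty_or_nonempty K with hK | ⟨⟨x₀⟩⟩
  · obtain ⟨s⟩ := hr'.nonempty
    exact ⟨s, fun x => hK.elim x⟩
  have := hr.metrizable t
  let _ := metrizableSpaceMetric (range (r t))
  have : CompactSpace (range (r t)) :=
    isCompact_iff_compactSpace.1 (isCompact_range (hr.continuous t))
  have : Nonempty (range (r t)) := ⟨⟨r t x₀, ⟨x₀, rfl⟩⟩⟩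
  have hq := denseRange_denseSeq (range (r t))
  have h1 : ∀ n, ∃ s, r' s (denseSeq (range (r t)) n).1 = (denseSeq (range (r t)) n).1 := by
    intro n
    have h2 : (denseSeq (range (r t)) n).1 ∈ induced r :=
      mem_iUnion.2 ⟨t, (denseSeq (range (r t)) n).2⟩
    rw [hD] at h2
    obtain ⟨s, hs⟩ := mem_iUnion.1 h2
    exact ⟨s, fix_of_range hr' hs⟩
  choose s hs using h1
  obtain ⟨S, hS⟩ := (preSkel hr').ub s
  refine ⟨S, fun x => ?_⟩
  refine hq.induction_on (p := fun y : range (r t) => r' S y.1 = y.1) ⟨r t x, ⟨x, rfl⟩⟩ ?_ ?_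
  · exact isClosed_eq ((hr'.continuous S).comp continuous_subtype_val) continuous_subtype_val
  · intro n
    have h3 := comp₂ hr' (hS n) (denseSeq (range (r t)) n).1
    rwa [hs] at h3

/-- Two retractions in different skeletons coincide, cofinally often, simultaneously for countably
many skeletons. -/
theorem exists_common {G : ℕ → Type v} [∀ n, PartialOrder (G n)] {r : ∀ n, G n → K → K}
    (hr : ∀ n, IsRetractionalSkeleton (r n)) (hD : ∀ n, induced (r n) = induced (r 0))
    (n₀ : ℕ) (s : G n₀) : ∃ t : ∀ n, G n, s ≤ t n₀ ∧ ∀ m n x, r m (t m) x = r n (t n) x := by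
  classical
  choose F hF using fun (n m : ℕ) (t : G n) => factor (hr n) (hr m) t
  choose E hE using fun (n m : ℕ) (t : G n) =>
    range_sub (hr n) (hr m) ((hD n).trans (hD m).symm) t
  -- one step: an upper bound of everything needed
  have hstep : ∀ p : ∀ n, G n, ∃ q : ∀ n, G n, (∀ n, p n ≤ q n) ∧
      (∀ n m, F n m (p n) ≤ q m) ∧ ∀ n m, E n m (p n) ≤ q m := by
    intro p
    have h1 : ∀ m, ∃ q : G m, p m ≤ q ∧ (∀ n, F n m (p n) ≤ q) ∧ ∀ n, E n m (p n) ≤ q := by
      intro m
      obtain ⟨a, ha⟩ := (preSkel (hr m)).ub fun n => F n m (p n)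
      obtain ⟨b, hb⟩ := (preSkel (hr m)).ub fun n => E n m (p n)
      obtain ⟨c, hc1, hc2⟩ := (hr m).directed a b
      obtain ⟨d, hd1, hd2⟩ := (hr m).directed c (p m)
      exact ⟨d, hd2, fun n => (ha n).trans (hc1.trans hd1), fun n => (hb n).trans (hc2.trans hd1)⟩
    choose q hq1 hq2 hq3 using h1
    exact ⟨q, hq1, fun n m => hq2 m n, fun n m => hq3 m n⟩
  choose nx hnx1 hnx2 hnx3 using hstep
  let p₀ : ∀ n, G n := fun n => if h : n = n₀ then h ▸ s else (hr n).nonempty.some
  have hp₀ : p₀ n₀ = s := by simp [p₀]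
  let p : ℕ → ∀ n, G n := fun k => nx^[k] p₀
  have hp : ∀ k, p (k + 1) = nx (p k) := fun k => Function.iterate_succ_apply' _ _ _
  have hmono : ∀ n, Monotone fun k => p k n := fun n => monotone_nat_of_le_succ fun k => by
    rw [hp]
    exact hnx1 _ _
  choose t ht using fun n => (hr n).sup _ (hmono n)
  have hle : ∀ n k, p k n ≤ t n := fun n k => (ht n).1 ⟨k, rfl⟩
  -- the kernels
  have hker : ∀ n m x, r n (t n) (r m (t m) x) = r n (t n) x := by
    intro n m x
    have h1 : ∀ k, r n (p k n) (r m (t m) x) = r n (p k n) x := by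
      intro k
      have h2 : F n m (p k n) ≤ t m := by
        have h3 := hnx2 (p k) n m
        rw [← hp] at h3
        exact h3.trans (hle m (k + 1))
      rw [← hF n m (p k n) (r m (t m) x), comp₁ (hr m) h2]
      exact hF n m (p k n) x
    have h2 := lim_mono (hr n) (hmono n) (ht n) (r m (t m) x)
    have h3 := lim_mono (hr n) (hmono n) (ht n) x
    exact tendsto_nhds_unique h2 (h3.congr fun k => (h1 k).symm)
  -- the ranges
  have hran : ∀ n m x, r m (t m) (r n (t n) x) = r n (t n) x := by
    intro n m x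
    have h1 : ∀ k, r m (t m) (r n (p k n) x) = r n (p k n) x := by
      intro k
      have h2 : E n m (p k n) ≤ t m := by
        have h3 := hnx3 (p k) n m
        rw [← hp] at h3
        exact h3.trans (hle m (k + 1))
      have h4 := comp₂ (hr m) h2 (r n (p k n) x)
      rwa [hE n m (p k n) x] at h4
    have h3 := lim_mono (hr n) (hmono n) (ht n) x
    have h4 : Tendsto (fun k => r m (t m) (r n (p k n) x)) atTop
        (𝓝 (r m (t m) (r n (t n) x))) := (((hr m).continuous _).tendsto _).comp h3
    exact tendsto_nhds_unique h4 (h3.congr fun k => (h1 k).symm)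
  refine ⟨t, ?_, fun m n x => ?_⟩
  · rw [← hp₀]
    exact hle n₀ 0
  · rw [← hker m n x]
    exact hran n m x

/-- Countably many skeletons inducing the same set, for which the orders of the index sets are
determined by the retractions, have a common subskeleton. -/
theorem positive {G : ℕ → Type v} [∀ n, PartialOrder (G n)] {r : ∀ n, G n → K → K}
    (hr : ∀ n, IsRetractionalSkeleton (r n)) (hD : ∀ n, induced (r n) = induced (r 0))
    (hord : ∀ n, ∀ s t : G n, r n s = r n s ∘ r n t ∧ r n s = r n t ∘ r n s → s ≤ t) :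
    ∃ (Λ : Type v) (_ : PartialOrder Λ) (R : Λ → K → K), IsCommonSubskeleton R r := by
  classical
  have hle : ∀ n, ∀ s t : G n, s ≤ t ↔ r n s = r n s ∘ r n t ∧ r n s = r n t ∘ r n s :=
    fun n s t => ⟨(hr n).compat s t, hord n s t⟩
  have hinj : ∀ n, Function.Injective (r n) := by
    intro n s t h
    refine le_antisymm (hord n s t ?_) (hord n t s ?_)
    · rw [← h]
      exact ⟨((hr n).retraction s).symm, ((hr n).retraction s).symm⟩
    · rw [h]
      exact ⟨((hr n).retraction t).symm, ((hr n).retraction t).symm⟩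
  let A : ∀ n, Set (G n) := fun n => {s | ∀ m, ∃ t, r m t = r n s}
  -- limits of increasing sequences of common retractions
  have hlim : ∀ n (u : ℕ → G n), Monotone u → (∀ k, u k ∈ A n) → ∀ t, IsLUB (range u) t →
      t ∈ A n := by
    intro n u hu huA t ht m
    choose v hv using fun k => huA k m
    have hvm : Monotone v := by
      intro k l hkl
      rw [hle m, hv, hv]
      exact (hr n).compat _ _ (hu hkl)
    obtain ⟨t', ht'⟩ := (hr m).sup v hvm
    refine ⟨t', ?_⟩
    funext x
    refine tendsto_nhds_unique (lim_mono (hr m) hvm ht' x) ?_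
    refine (lim_mono (hr n) hu ht x).congr fun k => ?_
    rw [hv]
  have hcof : ∀ n, IsCofinalSet (A n) := by
    intro n s
    obtain ⟨t, hst, ht⟩ := exists_common hr hD n s
    exact ⟨t n, fun m => ⟨t m, funext fun x => ht m n x⟩, hst⟩
  -- transport
  have hφ : ∀ n, ∃ φ : A 0 ≃o A n, ∀ i, r 0 i.1 = r n (φ i).1 := by
    intro n
    choose f hf using fun i : A 0 => i.2 n
    have hfA : ∀ i, f i ∈ A n := fun i m => by
      obtain ⟨t, ht⟩ := i.2 m
      exact ⟨t, ht.trans (hf i).symm⟩
    choose g hg using fun i : A n => i.2 0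
    have hgA : ∀ i, g i ∈ A 0 := fun i m => by
      obtain ⟨t, ht⟩ := i.2 m
      exact ⟨t, ht.trans (hg i).symm⟩
    refine ⟨{
      toFun := fun i => ⟨f i, hfA i⟩
      invFun := fun i => ⟨g i, hgA i⟩
      left_inv := fun i => Subtype.ext (hinj 0 ((hg _).trans (hf i)))
      right_inv := fun i => Subtype.ext (hinj n ((hf _).trans (hg i)))
      map_rel_iff' := ?_ }, fun i => (hf i).symm⟩
    intro i j
    show f i ≤ f j ↔ i.1 ≤ j.1
    rw [hle n, hle 0, hf, hf]
  refine ⟨A 0, inferInstance, fun i => r 0 i.1, ⟨?_, ?_⟩⟩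
  · have hne : Nonempty (A 0) := by
      obtain ⟨s⟩ := (hr 0).nonempty
      obtain ⟨t, ht, _⟩ := hcof 0 s
      exact ⟨⟨t, ht⟩⟩
    have hdir : ∀ s t : A 0, ∃ u, s ≤ u ∧ t ≤ u := by
      intro s t
      obtain ⟨u, hu1, hu2⟩ := (hr 0).directed s.1 t.1
      obtain ⟨v, hv, huv⟩ := hcof 0 u
      exact ⟨⟨v, hv⟩, hu1.trans huv, hu2.trans huv⟩
    have hlub : ∀ u : ℕ → A 0, Monotone u → ∀ t : G 0, IsLUB (range fun n => (u n).1) t →
        ∃ h : t ∈ A 0, IsLUB (range u) ⟨t, h⟩ := by
      intro u hu t ht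
      refine ⟨hlim 0 _ (fun k l hkl => hu hkl) (fun k => (u k).2) t ht, ?_, ?_⟩
      · rintro _ ⟨n, rfl⟩
        exact ht.1 ⟨n, rfl⟩
      · intro t' ht'
        refine ht.2 ?_
        rintro _ ⟨n, rfl⟩
        exact ht' ⟨n, rfl⟩
    have : IsDirectedOrder (A 0) := ⟨fun s t => hdir s t⟩
    refine ⟨hne, hdir, ?_, fun s => (hr 0).continuous _, fun s => (hr 0).retraction _,
      fun s => (hr 0).metrizable _, fun s t h => (hr 0).compat _ _ h, ?_, ?_⟩
    · intro u hu
      obtain ⟨t, ht⟩ := (hr 0).sup (fun n => (u n).1) fun k l hkl => hu hkl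
      obtain ⟨h, h'⟩ := hlub u hu t ht
      exact ⟨_, h'⟩
    · intro u hu t ht x
      obtain ⟨t', ht'⟩ := (hr 0).sup (fun n => (u n).1) fun k l hkl => hu.monotone hkl
      obtain ⟨h, h'⟩ := hlub u hu.monotone t' ht'
      have h2 := ht.unique h'
      subst h2
      exact lim_mono (hr 0) (fun k l hkl => hu.monotone hkl) ht' x
    · intro x
      refine ((hr 0).lim x).comp (tendsto_atTop_atTop_of_monotone (fun a b h => h) fun b => ?_)
      obtain ⟨t, ht, hbt⟩ := hcof 0 b
      exact ⟨⟨t, ht⟩, hbt⟩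
  · intro n
    obtain ⟨φ, hφ⟩ := hφ n
    exact ⟨A n, fun u hu huA t ht => hlim n u hu huA t ht, hcof n, φ, hφ⟩

/-! ### The negative part -/

/-- The sets of cardinality at most `#(Γ ⊕ ℕ)` of subsets of `Γ ⊕ ℕ`. -/
abbrev Big (Γ : Type v) : Type v := {A : Set (Set (Γ ⊕ ℕ)) // #A ≤ #(Γ ⊕ ℕ)}

theorem big_countable_union (u : ℕ → Big Γ) : #(⋃ n, (u n).1 : Set (Set (Γ ⊕ ℕ))) ≤ #(Γ ⊕ ℕ) := by
  have h0 : ℵ₀ ≤ #(Γ ⊕ ℕ) := by
    rw [mk_sum]
    simp
  have h1 : #(⋃ n : ULift.{v} ℕ, (u n.down).1 : Set (Set (Γ ⊕ ℕ))) ≤ #(Γ ⊕ ℕ) := by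
    refine (mk_iUnion_le_sum_mk).trans ?_
    calc Cardinal.sum (fun n : ULift.{v} ℕ => #(u n.down).1)
        ≤ Cardinal.sum (fun _ : ULift.{v} ℕ => #(Γ ⊕ ℕ)) :=
          Cardinal.sum_le_sum _ _ fun n => (u n.down).2
      _ = ℵ₀ * #(Γ ⊕ ℕ) := by simp
      _ ≤ #(Γ ⊕ ℕ) := by
          refine (mul_le_mul' h0 le_rfl).trans ?_
          rw [mul_eq_self h0]
  have h2 : (⋃ n, (u n).1) = ⋃ n : ULift.{v} ℕ, (u n.down).1 := by
    ext x
    simp only [mem_iUnion]
    exact ⟨fun ⟨n, hn⟩ => ⟨⟨n⟩, hn⟩, fun ⟨n, hn⟩ => ⟨n.down, hn⟩⟩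
  rw [h2]
  exact h1

theorem big_lub (u : ℕ → Big Γ) : IsLUB (range u) ⟨⋃ n, (u n).1, big_countable_union u⟩ := by
  refine ⟨?_, ?_⟩
  · rintro _ ⟨n, rfl⟩
    exact subset_iUnion (fun n => (u n).1) n
  · intro t ht
    exact iUnion_subset fun n => ht ⟨n, rfl⟩

theorem skeleton_prod (hr : IsRetractionalSkeleton r) :
    IsRetractionalSkeleton fun p : Γ × Big Γ => r p.1 := by
  have hne := hr.nonempty
  have hΓ : IsDirectedOrder Γ := ⟨fun s t => hr.directed s t⟩
  have hBig : ∀ s t : Big Γ, ∃ u, s ≤ u ∧ t ≤ u := by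
    intro s t
    refine ⟨⟨_, big_countable_union fun n => if n = 0 then s else t⟩,
      (big_lub fun n => if n = 0 then s else t).1 ⟨0, by simp⟩,
      (big_lub fun n => if n = 0 then s else t).1 ⟨1, by simp⟩⟩
  have hneB : Nonempty (Big Γ) := ⟨⟨∅, by simp⟩⟩
  have hlub : ∀ u : ℕ → Γ × Big Γ, Monotone u → ∀ a : Γ, IsLUB (range fun n => (u n).1) a →
      IsLUB (range u) (a, ⟨_, big_countable_union fun n => (u n).2⟩) := by
    intro u hu a ha
    refine ⟨?_, ?_⟩
    · rintro _ ⟨n, rfl⟩
      exact ⟨ha.1 ⟨n, rfl⟩, (big_lub fun n => (u n).2).1 ⟨n, rfl⟩⟩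
    · intro t ht
      refine ⟨ha.2 ?_, (big_lub fun n => (u n).2).2 ?_⟩
      · rintro _ ⟨n, rfl⟩
        exact (ht ⟨n, rfl⟩).1
      · rintro _ ⟨n, rfl⟩
        exact (ht ⟨n, rfl⟩).2
  refine ⟨inferInstance, ?_, ?_, fun s => hr.continuous _, fun s => hr.retraction _,
    fun s => hr.metrizable _, fun s t h => hr.compat _ _ h.1, ?_, ?_⟩
  · intro s t
    obtain ⟨a, ha1, ha2⟩ := hr.directed s.1 t.1
    obtain ⟨b, hb1, hb2⟩ := hBig s.2 t.2
    exact ⟨(a, b), ⟨ha1, hb1⟩, ⟨ha2, hb2⟩⟩
  · intro u hu
    obtain ⟨a, ha⟩ := hr.sup (fun n => (u n).1) fun k l hkl => (hu hkl).1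
    exact ⟨_, hlub u hu a ha⟩
  · intro u hu t ht x
    have hm : Monotone fun n => (u n).1 := fun k l hkl => (hu.monotone hkl).1
    obtain ⟨a, ha⟩ := hr.sup (fun n => (u n).1) hm
    have h1 := ht.unique (hlub u hu.monotone a ha)
    subst h1
    exact lim_mono hr hm ha x
  · intro x
    have : IsDirectedOrder (Big Γ) := ⟨fun s t => hBig s t⟩
    have h1 : Tendsto (Prod.fst : Γ × Big Γ → Γ) atTop atTop := by
      refine tendsto_atTop_atTop_of_monotone (fun a b h => h.1) fun b => ?_
      exact ⟨(b, hneB.some), le_rfl⟩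
    exact (hr.lim x).comp h1

/-- There is no cofinal set in the product which is the image of a subset of `Γ`. -/
theorem no_cofinal (A : Set Γ) (f : A → Γ × Big Γ) (hf : IsCofinalSet (range f))
    (hΓ : Nonempty Γ) : False := by
  classical
  have h0 : ℵ₀ ≤ #(Γ ⊕ ℕ) := by
    rw [mk_sum]
    simp
  have h1 : (⋃ i : A, (f i).2.1) = Set.univ := by
    rw [eq_univ_iff_forall]
    intro x
    obtain ⟨g⟩ := hΓ
    have hx : #({x} : Set (Set (Γ ⊕ ℕ))) ≤ #(Γ ⊕ ℕ) := by
      rw [mk_singleton]
      exact one_le_aleph0.trans h0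
    obtain ⟨_, ⟨i, rfl⟩, hi⟩ := hf (g, ⟨{x}, hx⟩)
    exact mem_iUnion.2 ⟨i, hi.2 (mem_singleton x)⟩
  have h2 : #(Set (Γ ⊕ ℕ)) ≤ #(Γ ⊕ ℕ) := by
    rw [← mk_univ (α := Set (Γ ⊕ ℕ)), ← h1]
    refine (mk_iUnion_le_sum_mk).trans ?_
    calc Cardinal.sum (fun i : A => #(f i).2.1)
        ≤ Cardinal.sum (fun _ : A => #(Γ ⊕ ℕ)) :=
          Cardinal.sum_le_sum _ _ fun i => (f i).2.2
      _ = #A * #(Γ ⊕ ℕ) := by simp
      _ ≤ #(Γ ⊕ ℕ) * #(Γ ⊕ ℕ) := by
          refine mul_le_mul' ((mk_subtype_le _).trans ?_) le_rfl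
          rw [mk_sum]
          simp
      _ = #(Γ ⊕ ℕ) := mul_eq_self h0
  rw [mk_set] at h2
  exact absurd h2 (not_le.2 (cantor _))

/-- The sequence of index sets `Γ`, `Γ'`, `Γ'`, ... -/
def idx (Γ Γ' : Type v) : ℕ → Type v
  | 0 => Γ
  | _ + 1 => Γ'

instance idxPO (Γ Γ' : Type v) [i : PartialOrder Γ] [j : PartialOrder Γ'] :
    ∀ n, PartialOrder (idx Γ Γ' n)
  | 0 => i
  | _ + 1 => j

/-- The sequence of families `r`, `r'`, `r'`, ... -/
def fam {Γ Γ' : Type v} (r : Γ → K → K) (r' : Γ' → K → K) : ∀ n, idx Γ Γ' n → K → K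
  | 0 => r
  | _ + 1 => r'

theorem negative (hr : IsRetractionalSkeleton r) :
    ¬ ∃ (Λ : Type w) (_ : PartialOrder Λ) (R : Λ → K → K),
      IsCommonSubskeleton R (fam r fun p : Γ × Big Γ => r p.1) := by
  rintro ⟨Λ, _, R, -, hiso⟩
  obtain ⟨A, -, -, φ, -⟩ := hiso 0
  obtain ⟨B, -, hBc, ψ, -⟩ := hiso 1
  let A' : Set Γ := A
  let f : A' → Γ × Big Γ := fun i => (ψ (φ.symm i)).1
  refine no_cofinal (Γ := Γ) A' f (fun s => ?_) hr.nonempty
  obtain ⟨t, ht, hst⟩ := hBc s
  refine ⟨t, ⟨φ (ψ.symm ⟨t, ht⟩), ?_⟩, hst⟩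
  show (ψ (φ.symm (φ (ψ.symm ⟨t, ht⟩)))).1 = t
  rw [φ.symm_apply_apply, ψ.apply_symm_apply]

end

/-! ### A nonmetrizable compact space with a retractional skeleton -/

section Cube

variable (X : Type v)

/-- The retraction onto the points with support in a countable set. -/
noncomputable def cut (A : {A : Set X // A.Countable}) (x : X → Bool) : X → Bool := by
  classical
  exact fun i => x i && decide (i ∈ A.1)

theorem continuous_cut (A : {A : Set X // A.Countable}) : Continuous (cut X A) := by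
  classical
  refine continuous_pi fun i => ?_
  have h1 : Continuous fun b : Bool => (b && decide (i ∈ A.1)) := continuous_of_discreteTopology
  exact h1.comp (continuous_apply i)

theorem cut_eq {A : {A : Set X // A.Countable}} {x : X → Bool} {i : X} (h : i ∈ A.1) :
    cut X A x i = x i := by simp [cut, h]

theorem cut_eq' {A : {A : Set X // A.Countable}} {x : X → Bool} {i : X} (h : i ∉ A.1) :
    cut X A x i = false := by simp [cut, h]

theorem skeleton_cube : IsRetractionalSkeleton (cut X) := by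
  classical
  have hlub : ∀ u : ℕ → {A : Set X // A.Countable},
      IsLUB (range u) ⟨⋃ n, (u n).1, countable_iUnion fun n => (u n).2⟩ := by
    intro u
    refine ⟨?_, ?_⟩
    · rintro _ ⟨n, rfl⟩
      exact subset_iUnion (fun n => (u n).1) n
    · intro t ht
      exact iUnion_subset fun n => ht ⟨n, rfl⟩
  have hcomp : ∀ s t : {A : Set X // A.Countable}, s ≤ t →
      cut X s = cut X s ∘ cut X t ∧ cut X s = cut X t ∘ cut X s := by
    intro s t h
    constructor
    · funext x i
      by_cases hi : i ∈ s.1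
      · rw [Function.comp_apply, cut_eq X hi, cut_eq X hi, cut_eq X (h hi)]
      · rw [Function.comp_apply, cut_eq' X hi, cut_eq' X hi]
    · funext x i
      by_cases hi : i ∈ s.1
      · rw [Function.comp_apply, cut_eq X (h hi)]
      · by_cases hi' : i ∈ t.1
        · rw [Function.comp_apply, cut_eq X hi']
        · rw [Function.comp_apply, cut_eq' X hi, cut_eq' X hi']
  have hdir : ∀ s t : {A : Set X // A.Countable}, ∃ u, s ≤ u ∧ t ≤ u := fun s t =>
    ⟨⟨s.1 ∪ t.1, s.2.union t.2⟩, subset_union_left, subset_union_right⟩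
  have : IsDirectedOrder {A : Set X // A.Countable} := ⟨fun s t => hdir s t⟩
  have hne : Nonempty {A : Set X // A.Countable} := ⟨⟨∅, countable_empty⟩⟩
  refine ⟨hne, hdir, fun u _ => ⟨_, hlub u⟩, continuous_cut X,
    fun s => (hcomp s s le_rfl).1.symm, ?_, hcomp, ?_, ?_⟩
  · intro s
    have := s.2.to_subtype
    let j : (s.1 → Bool) → (X → Bool) := fun y i => if h : i ∈ s.1 then y ⟨i, h⟩ else false
    have hj : Continuous j := by
      refine continuous_pi fun i => ?_
      by_cases h : i ∈ s.1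
      · simp only [j, dif_pos h]
        exact continuous_apply _
      · simp only [j, dif_neg h]
        exact continuous_const
    have hjinj : Function.Injective j := by
      intro y y' h
      funext i
      have h1 := congrFun h i.1
      simpa [j] using h1
    have hemb : IsEmbedding j := (hj.isClosedEmbedding hjinj).isEmbedding
    have hrange : range (cut X s) = range j := by
      ext x
      constructor
      · rintro ⟨y, rfl⟩
        refine ⟨fun i => y i.1, ?_⟩
        funext i
        by_cases h : i ∈ s.1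
        · simp only [j, dif_pos h]
          rw [cut_eq X h]
        · simp only [j, dif_neg h]
          rw [cut_eq' X h]
      · rintro ⟨y, rfl⟩
        refine ⟨j y, ?_⟩
        funext i
        by_cases h : i ∈ s.1
        · rw [cut_eq X h]
        · rw [cut_eq' X h]
          simp only [j, dif_neg h]
    rw [hrange]
    exact hemb.toHomeomorph.symm.isEmbedding.metrizableSpace
  · intro u hu t ht x
    have h1 := ht.unique (hlub u)
    subst h1
    rw [tendsto_pi_nhds]
    intro i
    refine tendsto_const_nhds.congr' ?_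
    by_cases h : i ∈ ⋃ n, (u n).1
    · obtain ⟨m, hm⟩ := mem_iUnion.1 h
      filter_upwards [eventually_ge_atTop m] with n hn
      have h2 : i ∈ (u n).1 := hu.monotone hn hm
      rw [cut_eq X h, cut_eq X h2]
    · refine Eventually.of_forall fun n => ?_
      have h2 : i ∉ (u n).1 := fun hn => h (mem_iUnion.2 ⟨n, hn⟩)
      exact (cut_eq' X h).trans (cut_eq' X h2).symm
  · intro x
    rw [tendsto_pi_nhds]
    intro i
    refine tendsto_const_nhds.congr' ?_
    filter_upwards [eventually_ge_atTop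
      (⟨{i}, countable_singleton i⟩ : {A : Set X // A.Countable})] with A hA
    rw [cut_eq X (hA (mem_singleton i))]

theorem not_metrizable_cube [Uncountable X] : ¬ MetrizableSpace (X → Bool) := by
  classical
  intro hm
  let _ := metrizableSpaceMetric (X → Bool)
  let x₀ : X → Bool := fun _ => false
  have h1 : ∀ n : ℕ, ∃ F : Finset X, ∀ y : X → Bool, (∀ i ∈ F, y i = false) →
      y ∈ Metric.ball x₀ (1 / ((n : ℝ) + 1)) := by
    intro n
    obtain ⟨J, u, hu, hJ⟩ := isOpen_pi_iff.1
      (Metric.isOpen_ball (x := x₀) (ε := 1 / ((n : ℝ) + 1))) x₀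
      (Metric.mem_ball_self Nat.one_div_pos_of_nat)
    refine ⟨J, fun y hy => hJ fun i hi => ?_⟩
    rw [hy i hi]
    exact (hu i hi).2
  choose F hF using h1
  have hc : (⋃ n, (F n : Set X)).Countable := countable_iUnion fun n => (F n).countable_toSet
  obtain ⟨i, hi⟩ : ∃ i, i ∉ ⋃ n, (F n : Set X) := by
    by_contra hcon
    push Not at hcon
    exact not_countable_univ (hc.mono fun x _ => hcon x)
  let y : X → Bool := fun j => decide (j = i)
  have h2 : ∀ n : ℕ, dist y x₀ < 1 / ((n : ℝ) + 1) := by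
    intro n
    refine hF n y fun j hj => ?_
    have : j ≠ i := fun h => hi (mem_iUnion.2 ⟨n, h ▸ hj⟩)
    simp [y, this]
  have h3 : dist y x₀ ≤ 0 := ge_of_tendsto' tendsto_one_div_add_atTop_nhds_zero_nat
    fun n => (h2 n).le
  have h4 : y = x₀ := dist_le_zero.1 h3
  have h5 := congrFun h4 i
  simp [y, x₀] at h5

end Cube

/-- (1) For every compact space `K` and each retractional skeleton `r` on it there is a sequence of
retractional skeletons on `K`, the first of which is `r`, consisting of the same retractions and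
inducing the same set as `r`, without common subskeleton.
(2) This applies to nonmetrizable compact spaces.
(3) A sequence of retractional skeletons inducing the same set, for which the order of the index
sets is determined by the retractions, has a common subskeleton. -/
theorem result :
    (∀ (K : Type u) [TopologicalSpace K] [CompactSpace K] [T2Space K] (Γ : Type v)
      [PartialOrder Γ] (r : Γ → K → K), IsRetractionalSkeleton r →
      ∃ (G : ℕ → Type v) (_ : ∀ n, PartialOrder (G n)) (ρ : ∀ n, G n → K → K),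
        (∀ n, IsRetractionalSkeleton (ρ n)) ∧
        (∃ e : G 0 ≃o Γ, ∀ s, ρ 0 s = r (e s)) ∧
        (∀ n, range (ρ n) = range r) ∧
        (∀ n, induced (ρ n) = induced r) ∧
        ¬ ∃ (Λ : Type w) (_ : PartialOrder Λ) (R : Λ → K → K), IsCommonSubskeleton R ρ) ∧
    (∃ (K : Type) (_ : TopologicalSpace K), CompactSpace K ∧ T2Space K ∧ ¬ MetrizableSpace K ∧
      ∃ (Γ : Type) (_ : PartialOrder Γ) (r : Γ → K → K), IsRetractionalSkeleton r) ∧
    (∀ (K : Type u) [TopologicalSpace K] [CompactSpace K] [T2Space K] (G : ℕ → Type v)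
      [∀ n, PartialOrder (G n)] (r : ∀ n, G n → K → K),
      (∀ n, IsRetractionalSkeleton (r n)) → (∀ n, induced (r n) = induced (r 0)) →
      (∀ n, ∀ s t : G n, r n s = r n s ∘ r n t ∧ r n s = r n t ∘ r n s → s ≤ t) →
      ∃ (Λ : Type v) (_ : PartialOrder Λ) (R : Λ → K → K), IsCommonSubskeleton R r) := by
  refine ⟨?_, ?_, ?_⟩
  · intro K _ _ _ Γ _ r hr
    have hne : Nonempty (Big Γ) := ⟨⟨∅, by simp⟩⟩
    have hran : range (fun p : Γ × Big Γ => r p.1) = range r := by
      ext f
      constructor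
      · rintro ⟨p, rfl⟩
        exact ⟨p.1, rfl⟩
      · rintro ⟨s, rfl⟩
        exact ⟨(s, hne.some), rfl⟩
    have hran' : ∀ n, range (fam r (fun p : Γ × Big Γ => r p.1) n) = range r := by
      intro n
      cases n with
      | zero => rfl
      | succ n => exact hran
    have hind : ∀ n, induced (fam r (fun p : Γ × Big Γ => r p.1) n) = induced r := by
      intro n
      have h1 : ∀ {Δ : Type v} (ρ : Δ → K → K), induced ρ = ⋃ f ∈ range ρ, range f := by
        intro Δ ρ
        rw [biUnion_range]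
        rfl
      rw [h1, h1, hran']
    refine ⟨idx Γ (Γ × Big Γ), inferInstance, fam r fun p : Γ × Big Γ => r p.1, ?_,
      ⟨OrderIso.refl Γ, fun s => rfl⟩, hran', hind, negative hr⟩
    intro n
    cases n with
    | zero => exact hr
    | succ n => exact skeleton_prod hr
  · have : Uncountable (ℕ → Bool) := by
      rw [← Cardinal.aleph0_lt_mk_iff]
      simp [Cardinal.aleph0_lt_continuum]
    exact ⟨(ℕ → Bool) → Bool, inferInstance, inferInstance, inferInstance,
      not_metrizable_cube _, _, inferInstance, _, skeleton_cube _⟩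
  · intro K _ _ _ G _ r hr hD hord
    exact positive hr hD hord

end Pool.Agent.Results.MP_fb95e7_gt.CommonSubskeletons
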